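import Pool.Agent.Q17.LEF.Main

/-! An uncountable family of finitely generated LEF groups with pairwise inequivalent (even
pairwise `⪯`-incomparable) LEF growth.  The definitions `IsLEF`, `ball`, `lefGrowth`, `Preceq`,
`Approx`, `IsFiniteGenerating` are those of `Pool.Agent.Q17.LEF.Defs`. -/

namespace Pool.Agent.Results.MP_bb1fdc_al

open Q17.LEF

/-- There is a family of finitely generated LEF groups, indexed by the uncountable set of all
binary sequences, whose members are pairwise non-isomorphic, such that groups of the family with
equivalent LEF growth (with respect to any finite generating sets) have the same index; in fact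
the LEF growth of one member is never `⪯` that of another one. -/
theorem UncountableFamily.result : ∃ (G : (ℕ → Bool) → Type) (_ : ∀ i, Group (G i)),
    Uncountable (ℕ → Bool) ∧
    (∀ i, Group.FG (G i)) ∧
    (∀ i, IsLEF (G i)) ∧
    (∀ i j, i ≠ j → IsEmpty (G i ≃* G j)) ∧
    (∀ i j, ∀ (S : Set (G i)) (T : Set (G j)), IsFiniteGenerating S → IsFiniteGenerating T →
      Approx (lefGrowth S) (lefGrowth T) → i = j) ∧
    (∀ i j, i ≠ j → ∀ (S : Set (G i)) (T : Set (G j)), IsFiniteGenerating S →
      IsFiniteGenerating T → ¬ Preceq (lefGrowth S) (lefGrowth T)) := by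
  obtain ⟨G, inst, h1, h2, h3, h4⟩ := Q17.LEF.main
  refine ⟨G, inst, ?_, h1, h2, h3, ?_, h4⟩
  · rw [← Cardinal.aleph0_lt_mk_iff]
    simpa using Cardinal.aleph0_lt_continuum
  · intro i j S T hS hT h
    by_contra hij
    exact h4 i j hij S T hS hT h.1

end Pool.Agent.Results.MP_bb1fdc_al
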